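import Mathlib
import Pool.Agent.R674.Golod.Defs
import Pool.Agent.R674.Golod.HankelMain

/-!
# MP_811251, Q1: a Golod ring of a large Hankel matrix

For every field `k` of characteristic different from `2`, the quotient of `k[y_0, …, y_7]` by the
ideal of all `2 × 2` permanents of the generic `4 × 5` Hankel matrix is Golod.

With `θ = y_0 + y_7` the maximal ideal `m` of the quotient satisfies `m² = θ m`, and `θ` is a
nonzerodivisor on `m` (the quotient is Cohen–Macaulay of dimension one and minimal multiplicity
`8`).  Hence cycles of the Koszul complex with coefficients in `m²` are boundaries of elements with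
coefficients in `m`, which gives a trivial Massey operation.
-/

namespace Pool.Agent.Results.MP_811251_al.HankelPermanents

open MvPolynomial Pool.Agent.R674.Golod

universe u

/-- **Negative answer to Q1.** The `4 × 5` Hankel matrix gives a Golod ring. -/
theorem result (k : Type u) [Field k] (hk : ringChar k ≠ 2) :
    perm2 (hankel k 4 5) ≤ Ideal.span (Set.range X) ^ 2 ∧ IsGolod (perm2 (hankel k 4 5)) :=
  ⟨HI_le, isGolod_HI (Ring.two_ne_zero hk)⟩

end Pool.Agent.Results.MP_811251_al.HankelPermanents
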